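import Mathlib

/-!
# Circuits with arbitrary gates, and the transforms of their wirings: definitions
-/

namespace Pool.Agent.H429R4.FW

/-- A circuit with inputs indexed by `B` that take values in `I`, with gates that take values in `D`
and wires labelled by `L`: a finite acyclic directed multigraph of gates. `read g` is the input read
by the gate `g` (if any), `wires g` is the multiset of the wires that enter `g`, every wire being
given by its label and by the gate at which it starts, and `fn g` is the function computed at `g`:
an arbitrary function of the input that `g` reads and of the multiset of the pairs (label, value) on
the wires entering `g`. Wires go from gates of smaller `rank` to gates of larger `rank`. -/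
structure Circuit (I B D L : Type) where
  Gate : Type
  finite : Fintype Gate
  rank : Gate → ℕ
  read : Gate → Option B
  wires : Gate → Multiset (L × Gate)
  rank_lt : ∀ g, ∀ e ∈ wires g, rank e.2 < rank g
  fn : Gate → Option I → Multiset (L × D) → D
  out : Gate

namespace Circuit

variable {I B D L : Type}

/-- The number of gates. -/
def size (C : Circuit I B D L) : ℕ := @Fintype.card C.Gate C.finite

/-- The value of the gate `g` when the inputs are given by `x`. -/
def eval (C : Circuit I B D L) (x : B → I) (g : C.Gate) : D :=
  C.fn g ((C.read g).map x) ((C.wires g).attach.map fun e => (e.1.1, C.eval x e.1.2))
termination_by C.rank g
decreasing_by exact C.rank_lt g e.1 e.2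

/-- The value of the output gate. -/
def output (C : Circuit I B D L) (x : B → I) : D := C.eval x C.out

end Circuit

variable {X I B D L : Type}

/-- The function computed at the gate `g` of a circuit whose inputs describe the objects `x : X` by
`enc x`. -/
def value (enc : X → B → I) (C : Circuit I B D L) (g : C.Gate) (x : X) : D := C.eval (enc x) g

/-- What enters the gate `g`, transformed by the map `f` of the objects: the input read by `g` and
the multiset of the labels and functions on the wires, as functions of the object, composed with
`f`. -/
def view (enc : X → B → I) (C : Circuit I B D L) (g : C.Gate) (f : X → X) :
    Option (X → I) × Multiset (L × (X → D)) :=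
  ((C.read g).map fun c x => enc (f x) c,
    (C.wires g).map fun e => (e.1, fun x => value enc C e.2 (f x)))

/-- The set of all transforms of the wirings of all gates under the maps in `A`. -/
def wirings (enc : X → B → I) (C : Circuit I B D L) (A : Set (X → X)) :
    Set (Option (X → I) × Multiset (L × (X → D))) :=
  {w | ∃ g, ∃ f ∈ A, view enc C g f = w}

/-- The number of different transforms of the wirings of the gates under the maps in `A`. -/
noncomputable def numWirings (enc : X → B → I) (C : Circuit I B D L) (A : Set (X → X)) : ℕ :=
  Nat.card (wirings enc C A)

end Pool.Agent.H429R4.FW
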