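import Pool.Agent.H429R4.FW.Circ
import Pool.Agent.H30R2.PS.Lin
import Pool.Agent.H429R4.Sem.Core

/-!
# Invisible shifts do not change the values at the gates
-/

namespace Pool.Agent.H429R4.FW

open Finset
open Pool.Agent.H30R2.PS (dot dot_comm dot_add add_dot smul_dot zero_dot dot_zero dot_single sep
  decomp wt wt_add_le wt_zero wt_smul_le wt_single)
open Pool.Agent.H429R4.Sem (map_eq_of_shift)

set_option linter.unusedSectionVars false

variable {X I B D L : Type}

theorem value_eq (enc : X → B → I) (C : Circuit I B D L) (g : C.Gate) (x : X) :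
    value enc C g x = C.fn g ((C.read g).map (enc x))
      ((C.wires g).map fun e => (e.1, value enc C e.2 x)) := by
  unfold value
  rw [Circuit.eval]
  congr 1
  exact Multiset.attach_map_val' (C.wires g) fun e => (e.1, C.eval (enc x) e.2)

theorem value_eq_view (enc : X → B → I) (C : Circuit I B D L) (g : C.Gate) (f : X → X) (x : X) :
    value enc C g (f x) = C.fn g ((view enc C g f).1.map fun F => F x)
      ((view enc C g f).2.map fun e => (e.1, e.2 x)) := by
  rw [value_eq]
  unfold view
  simp only [Option.map_map, Multiset.map_map, Function.comp_def]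

theorem view_comp (enc : X → B → I) (C : Circuit I B D L) (g : C.Gate) (f h : X → X) :
    view enc C g (f ∘ h) = ((view enc C g f).1.map fun F x => F (h x),
      (view enc C g f).2.map fun e => (e.1, fun x => e.2 (h x))) := by
  unfold view
  simp only [Option.map_map, Multiset.map_map, Function.comp_def]

/-- The transform of a wiring under a map of the objects. -/
def pre (h : X → X) (ξ : Option (X → I) × Multiset (L × (X → D))) :
    Option (X → I) × Multiset (L × (X → D)) :=
  (ξ.1.map fun F x => F (h x), ξ.2.map fun e => (e.1, fun x => e.2 (h x)))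

theorem pre_view (enc : X → B → I) (C : Circuit I B D L) (g : C.Gate) (f h : X → X) :
    pre h (view enc C g f) = view enc C g (f ∘ h) := (view_comp enc C g f h).symm

theorem pre_pre (h h' : X → X) (ξ : Option (X → I) × Multiset (L × (X → D))) :
    pre h (pre h' ξ) = pre (h' ∘ h) ξ := by
  unfold pre
  simp only [Option.map_map, Multiset.map_map, Function.comp_def]

theorem pre_id (ξ : Option (X → I) × Multiset (L × (X → D))) : pre id ξ = ξ := by
  unfold pre
  simp

variable {G : Type} [AddCommGroup G] [Module (ZMod 2) G]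

theorem add_self_G (a : G) : a + a = 0 := by
  have h1 : ((1 : ZMod 2) + 1) • a = 0 := by
    rw [show (1 : ZMod 2) + 1 = 0 by decide, zero_smul]
  rw [add_smul, one_smul] at h1
  exact h1

/-- An action of a vector space over the field with two elements. -/
structure IsAction (a : G → X → X) : Prop where
  zero : ∀ x, a 0 x = x
  add : ∀ u u' x, a (u + u') x = a u (a u' x)

variable {a : G → X → X}

theorem IsAction.add' (ha : IsAction a) (u u' : G) (x : X) : a (u + u') x = a u' (a u x) := by
  rw [add_comm, ha.add]

/-- The vectors that fix a function. -/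
def fixer (ha : IsAction a) {Y : Type} (F : X → Y) : Submodule (ZMod 2) G where
  carrier := {u | ∀ x, F (a u x) = F x}
  add_mem' := by
    intro u u' h h' x
    rw [ha.add', h', h]
  zero_mem' := by
    intro x
    rw [ha.zero]
  smul_mem' := by
    intro c u h
    have hc : c = 0 ∨ c = 1 := by
      revert c
      decide
    rcases hc with rfl | rfl
    · rw [zero_smul]
      intro x
      rw [ha.zero]
    · rw [one_smul]
      exact h

/-- The vectors that fix the wiring of a gate. -/
def vfixer (ha : IsAction a) (enc : X → B → I) (C : Circuit I B D L) (g : C.Gate) :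
    Submodule (ZMod 2) G where
  carrier := {u | view enc C g (a u) = view enc C g id}
  add_mem' := by
    intro u u' h h'
    have h1 : a (u + u') = a u ∘ a u' := funext fun x => ha.add u u' x
    have h2 : a u' = id ∘ a u' := rfl
    change view enc C g (a (u + u')) = view enc C g id
    rw [h1, view_comp]
    have h3 : view enc C g (a u) = view enc C g id := h
    rw [h3, ← view_comp, ← h2]
    exact h'
  zero_mem' := by
    have h : a 0 = id := funext fun x => ha.zero x
    change view enc C g (a 0) = view enc C g id
    rw [h]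
  smul_mem' := by
    intro c u h
    have hc : c = 0 ∨ c = 1 := by
      revert c
      decide
    rcases hc with rfl | rfl
    · rw [zero_smul]
      have h : a 0 = id := funext fun x => ha.zero x
      change view enc C g (a 0) = view enc C g id
      rw [h]
    · rw [one_smul]
      exact h

theorem mem_vfixer {ha : IsAction a} {enc : X → B → I} {C : Circuit I B D L} {g : C.Gate}
    {u : G} : u ∈ vfixer ha enc C g ↔ view enc C g (a u) = view enc C g id := Iff.rfl

theorem vfixer_le (ha : IsAction a) (enc : X → B → I) (C : Circuit I B D L) (g : C.Gate) :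
    vfixer ha enc C g ≤ fixer ha (value enc C g) := by
  intro u hu x
  rw [mem_vfixer] at hu
  have h1 := value_eq_view enc C g (a u) x
  have h2 := value_eq_view enc C g id x
  rw [hu, ← h2] at h1
  exact h1

theorem fixer_comp (ha : IsAction a) {Y : Type} (F : X → Y) (s : G) :
    fixer ha (fun x => F (a s x)) = fixer ha F := by
  have e2 : s + s = 0 := add_self_G s
  ext u
  constructor
  · intro h x
    have h1 := h (a s x)
    simp only [← ha.add] at h1
    have e1 : s + (u + s) = u := by
      rw [add_comm u s, ← add_assoc, e2, zero_add]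
    rw [e1, e2, ha.zero] at h1
    exact h1
  · intro h x
    have h1 := h (a s x)
    simp only [← ha.add] at h1 ⊢
    rw [add_comm s u]
    exact h1

variable {S : Type} [Fintype S] [DecidableEq S] (Bm : G →ₗ[ZMod 2] (S → ZMod 2)) (τ : ℕ)

/-- No combination of weight in `(τ, 2 τ]` is invisible. -/
def Mid (H : Submodule (ZMod 2) G) : Prop :=
  ∀ l : S → ZMod 2, τ < wt l → wt l ≤ 2 * τ → ∃ u ∈ H, dot l (Bm u) ≠ 0

variable {Bm τ}

theorem Mid.mono {H H' : Submodule (ZMod 2) G} (h : Mid Bm τ H) (hle : H ≤ H') : Mid Bm τ H' := by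
  intro l h1 h2
  obtain ⟨u, hu, hne⟩ := h l h1 h2
  exact ⟨u, hle hu, hne⟩

/-- The short combinations invisible for `H`. -/
def vis {H : Submodule (ZMod 2) G} (hH : Mid Bm τ H) : Submodule (ZMod 2) (S → ZMod 2) where
  carrier := {x | wt x ≤ τ ∧ ∀ u ∈ H, dot x (Bm u) = 0}
  add_mem' := by
    rintro x y ⟨hx, hx'⟩ ⟨hy, hy'⟩
    have hkill : ∀ u ∈ H, dot (x + y) (Bm u) = 0 := by
      intro u hu
      rw [add_dot, hx' u hu, hy' u hu, add_zero]
    refine ⟨?_, hkill⟩
    by_contra hlt
    rw [not_le] at hlt
    have hle : wt (x + y) ≤ 2 * τ := by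
      have := wt_add_le x y
      omega
    obtain ⟨u, hu, hne⟩ := hH (x + y) hlt hle
    exact hne (hkill u hu)
  zero_mem' := by
    refine ⟨?_, fun u _ => zero_dot _⟩
    rw [wt_zero]
    exact Nat.zero_le _
  smul_mem' := by
    rintro c x ⟨hx, hx'⟩
    refine ⟨(wt_smul_le c x).trans hx, fun u hu => ?_⟩
    rw [smul_dot, hx' u hu, mul_zero]

theorem mem_vis {H : Submodule (ZMod 2) G} {hH : Mid Bm τ H} {x : S → ZMod 2} :
    x ∈ vis hH ↔ wt x ≤ τ ∧ ∀ u ∈ H, dot x (Bm u) = 0 := Iff.rfl

/-- The vector is orthogonal to the short combinations invisible for `H`. -/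
def Kills (Bm : G →ₗ[ZMod 2] (S → ZMod 2)) (τ : ℕ) (H : Submodule (ZMod 2) G)
    (e : S → ZMod 2) : Prop :=
  ∀ x : S → ZMod 2, wt x ≤ τ → (∀ u ∈ H, dot x (Bm u) = 0) → dot x e = 0

theorem exists_shift {H H' : Submodule (ZMod 2) G} (hH' : Mid Bm τ H') (hH : Mid Bm τ H)
    {e : S → ZMod 2} (he : Kills Bm τ H e) : ∃ u ∈ H, Kills Bm τ H' (e + Bm u) := by
  obtain ⟨e', q, he', hq, rfl⟩ := decomp (vis hH') (vis hH) (H.map Bm)
    (by
      intro μ hμ hk
      exact ⟨hμ.1, fun u hu => hk _ (Submodule.mem_map_of_mem hu)⟩) e
    (fun s hs => he s hs.1 hs.2)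
  rw [Submodule.mem_map] at hq
  obtain ⟨u, hu, rfl⟩ := hq
  refine ⟨u, hu, ?_⟩
  intro x h1 h2
  rw [add_assoc, ← map_add, add_self_G, map_zero, add_zero]
  exact he' x ⟨h1, h2⟩

/-- Shifts that are invisible for the function computed at a gate do not change its value. -/
theorem value_shift (ha : IsAction a) (enc : X → B → I) (C : Circuit I B D L)
    (ins : (S → ZMod 2) → X) (hins : ∀ u t, a u (ins t) = ins (t + Bm u)) (hτ : 1 ≤ τ)
    (loc : B → Set S)
    (hloc1 : ∀ β t e, (∀ s ∈ loc β, e s = 0) → enc (ins (t + e)) β = enc (ins t) β)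
    (hloc2 : ∀ β u, (∀ x, enc (a u x) β = enc x β) → ∀ s ∈ loc β, Bm u s = 0)
    (hmid : ∀ g, Mid Bm τ (vfixer ha enc C g))
    (g : C.Gate) (t e : S → ZMod 2) (he : Kills Bm τ (fixer ha (value enc C g)) e) :
    value enc C g (ins (t + e)) = value enc C g (ins t) := by
  classical
  induction hr : C.rank g using Nat.strong_induction_on generalizing g t e with
  | _ r ih =>
    obtain ⟨s, hs, hu'⟩ := exists_shift (hmid g) ((hmid g).mono (vfixer_le ha enc C g)) he
    set e₁ := e + Bm s with he₁
    set t₁ := t + Bm s with ht₁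
    have hBB : Bm s + Bm s = 0 := by rw [← map_add, add_self_G, map_zero]
    have e1 : t + e = t₁ + e₁ := by
      rw [ht₁, he₁, add_comm e, ← add_assoc, add_assoc t, hBB, add_zero]
    have e2 : value enc C g (ins t₁) = value enc C g (ins t) := by
      have h2 := hs (ins t)
      rw [hins] at h2
      exact h2
    rw [e1, ← e2, value_eq, value_eq]
    have hread : (C.read g).map (enc (ins (t₁ + e₁))) = (C.read g).map (enc (ins t₁)) := by
      rcases hβ : C.read g with _ | β
      · rfl
      · simp only [Option.map_some, Option.some.injEq]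
        refine hloc1 β t₁ e₁ fun j hj => ?_
        rw [← dot_single e₁ j]
        refine hu' _ (by rw [wt_single]; exact hτ) fun u hu => ?_
        rw [dot_single]
        refine hloc2 β u ?_ j hj
        rw [mem_vfixer] at hu
        have h6 := congrArg Prod.fst hu
        unfold view at h6
        simp only [hβ, Option.map_some, Option.some.injEq] at h6
        exact fun x => congrFun h6 x
    rw [hread]
    refine congrArg (C.fn g ((C.read g).map (enc (ins t₁)))) ?_
    -- the wires
    let K : AddSubgroup G := (vfixer ha enc C g).toAddSubgroup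
    let F := L × (X → D)
    let T : G → F → F := fun s e => (e.1, fun x => e.2 (a s x))
    have hT0 : ∀ e, T 0 e = e := by
      rintro ⟨l, F⟩
      simp only [T, ha.zero]
    have hTadd : ∀ s s' e, T (s + s') e = T s (T s' e) := by
      rintro s s' ⟨l, F⟩
      refine congrArg (Prod.mk l) (funext fun x => ?_)
      rw [ha.add']
    let P : (X → D) → G → Prop := fun F s' =>
      s' ∈ K ∧ Kills Bm τ (fixer ha F) (e₁ + Bm s')
    let c : F → G := fun e => if h : ∃ s', P e.2 s' then Classical.choose h else 0
    have hcK : ∀ e, c e ∈ K := by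
      intro e
      change (if h : ∃ s', P e.2 s' then Classical.choose h else 0) ∈ K
      split_ifs with h
      · exact (Classical.choose_spec h).1
      · exact K.zero_mem
    have hc : ∀ s' ∈ K, ∀ e, c (T s' e) = c e := by
      intro s' _ e
      have hP : P (T s' e).2 = P e.2 := by
        funext s₂
        simp only [P, T]
        rw [fixer_comp]
      simp only [c, hP]
    have hkey := map_eq_of_shift T hT0 hTadd K ((C.wires g).map fun e => (e.1, value enc C e.2))
      (by
        intro s' hs'
        have hs'' : view enc C g (a s') = view enc C g id := hs'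
        have h6 := congrArg Prod.snd hs''
        unfold view at h6
        simp only [id] at h6
        rw [Multiset.map_map]
        exact h6)
      (fun e => (e.1, e.2 (ins (t₁ + e₁)))) (fun e => (e.1, e.2 (ins t₁))) c hcK hc
      (by
        intro w hw
        rw [Multiset.mem_map] at hw
        obtain ⟨⟨l, h⟩, hw, rfl⟩ := hw
        have hex : ∃ s', P (value enc C h) s' := by
          obtain ⟨u, hu, hu2⟩ := exists_shift ((hmid h).mono (vfixer_le ha enc C h)) (hmid g) hu'
          exact ⟨u, hu, hu2⟩
        have hce : c (l, value enc C h) = Classical.choose hex := by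
          simp only [c]
          rw [dif_pos hex]
        have hsp := (Classical.choose_spec hex).2
        rw [← hce] at hsp
        set s' := c (l, value enc C h) with hs'
        have e3 := ih (C.rank h) (by rw [← hr]; exact C.rank_lt g (l, h) hw) h
          (t₁ + Bm s') (e₁ + Bm s') hsp rfl
        have hBB' : Bm s' + Bm s' = 0 := by rw [← map_add, add_self_G, map_zero]
        have e4 : (t₁ + Bm s') + (e₁ + Bm s') = t₁ + e₁ := by
          rw [add_comm e₁, ← add_assoc, add_assoc t₁, hBB', add_zero]
        rw [e4] at e3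
        simp only [T]
        rw [hins, e3])
    simpa only [Multiset.map_map, Function.comp_def] using hkey

/-- If a long combination `c` is given, some translation changing `c` does not change the
output. -/
theorem exists_output_shift (ha : IsAction a) (enc : X → B → I) (C : Circuit I B D L)
    (ins : (S → ZMod 2) → X) (hins : ∀ u t, a u (ins t) = ins (t + Bm u)) (hτ : 1 ≤ τ)
    (loc : B → Set S)
    (hloc1 : ∀ β t e, (∀ s ∈ loc β, e s = 0) → enc (ins (t + e)) β = enc (ins t) β)
    (hloc2 : ∀ β u, (∀ x, enc (a u x) β = enc x β) → ∀ s ∈ loc β, Bm u s = 0)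
    (hmid : ∀ g, Mid Bm τ (vfixer ha enc C g)) (c : S → ZMod 2) (hc : τ < wt c) :
    ∃ e : S → ZMod 2, dot c e = 1 ∧
      ∀ t, C.output (enc (ins (t + e))) = C.output (enc (ins t)) := by
  have hM : Mid Bm τ (fixer ha (value enc C C.out)) :=
    (hmid C.out).mono (vfixer_le ha enc C C.out)
  have h1 : c ∉ vis hM := by
    rintro ⟨h, _⟩
    omega
  obtain ⟨e, he, hce⟩ := sep _ c h1
  refine ⟨e, ?_, fun t => ?_⟩
  · rw [dot_comm]
    have : ∀ z : ZMod 2, z ≠ 0 → z = 1 := by decide
    exact this _ hce
  · refine value_shift ha enc C ins hins hτ loc hloc1 hloc2 hmid C.out t e ?_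
    intro x hx hx'
    rw [dot_comm]
    exact he x ⟨hx, hx'⟩

end Pool.Agent.H429R4.FW
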