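import Pool.Agent.H429R4.FW.Engine

/-!
# The number of wirings with a given stabiliser
-/

namespace Pool.Agent.H429R4.FW

open Finset

set_option linter.unusedSectionVars false

variable {X I B D L Ξ G : Type} [AddCommGroup G] [Module (ZMod 2) G] {ρ : G → Ξ → Ξ}

/-- The stabiliser of a point. -/
def stab (hρ : IsAction ρ) (ξ : Ξ) : Submodule (ZMod 2) G where
  carrier := {u | ρ u ξ = ξ}
  add_mem' := by
    intro u u' h h'
    change ρ (u + u') ξ = ξ
    have h1 : ρ u ξ = ξ := h
    have h2 : ρ u' ξ = ξ := h'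
    rw [hρ.add, h2, h1]
  zero_mem' := hρ.zero ξ
  smul_mem' := by
    intro c u h
    have hc : c = 0 ∨ c = 1 := by
      revert c
      decide
    rcases hc with rfl | rfl
    · rw [zero_smul]
      exact hρ.zero ξ
    · rw [one_smul]
      exact h

theorem mem_stab {hρ : IsAction ρ} {ξ : Ξ} {u : G} : u ∈ stab hρ ξ ↔ ρ u ξ = ξ := Iff.rfl

theorem IsAction.self (hρ : IsAction ρ) (s : G) (ξ : Ξ) : ρ s (ρ s ξ) = ξ := by
  rw [← hρ.add, add_self_G, hρ.zero]

theorem stab_act (hρ : IsAction ρ) (ξ : Ξ) (s : G) : stab hρ (ρ s ξ) = stab hρ ξ := by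
  ext u
  rw [mem_stab, mem_stab, ← hρ.add, add_comm, hρ.add]
  constructor
  · intro h
    have h1 := congrArg (ρ s) h
    rw [hρ.self, hρ.self] at h1
    exact h1
  · intro h
    rw [h]

/-- The orbit of a point is large if its stabiliser is small. -/
theorem orbit_le [Finite G] (hρ : IsAction ρ) (Wr : Set Ξ) (hfin : Wr.Finite)
    (hcl : ∀ ξ ∈ Wr, ∀ s, ρ s ξ ∈ Wr) {ξ : Ξ} (hξ : ξ ∈ Wr) :
    Nat.card G ≤ Nat.card {ξ' : Wr // stab hρ ξ'.1 = stab hρ ξ} * Nat.card (stab hρ ξ) := by
  have : Finite Wr := hfin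
  have h1 := Submodule.card_eq_card_quotient_mul_card (stab hρ ξ)
  rw [h1]
  rw [mul_comm]
  refine Nat.mul_le_mul_right _ ?_
  refine Nat.card_le_card_of_injective (fun q : G ⧸ stab hρ ξ =>
    (⟨⟨ρ q.out ξ, hcl ξ hξ _⟩, stab_act hρ ξ _⟩ : {ξ' : Wr // stab hρ ξ'.1 = stab hρ ξ})) ?_
  intro q q' e'
  have e : ρ q.out ξ = ρ q'.out ξ := congrArg (fun z => z.1.1) e'
  rw [← q.out_eq, ← q'.out_eq]
  refine (Submodule.Quotient.eq _).2 ?_
  have hneg : q.out - q'.out = q'.out + q.out := by
    have h2 : -q'.out = q'.out := neg_eq_of_add_eq_zero_left (add_self_G _)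
    rw [sub_eq_add_neg, h2, add_comm]
  rw [hneg, mem_stab, hρ.add, e, hρ.self]

variable {a : G → X → X}

/-- The action on the wirings. -/
theorem isAction_pre (ha : IsAction a) :
    IsAction fun (u : G) (ξ : Option (X → I) × Multiset (L × (X → D))) => pre (a u) ξ where
  zero ξ := by
    have h : a 0 = id := funext fun x => ha.zero x
    rw [h, pre_id]
  add u u' ξ := by
    rw [pre_pre]
    have h : a (u + u') = a u' ∘ a u := funext fun x => ha.add' u u' x
    rw [h]

theorem wirings_closed (ha : IsAction a) (enc : X → B → I) (C : Circuit I B D L) :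
    ∀ ξ ∈ wirings enc C (Set.range a), ∀ u : G, pre (a u) ξ ∈ wirings enc C (Set.range a) := by
  rintro ξ ⟨g, f, ⟨u', rfl⟩, rfl⟩ u
  refine ⟨g, a u' ∘ a u, ⟨u' + u, ?_⟩, ?_⟩
  · funext x
    rw [Function.comp_apply, ha.add]
  · rw [pre_view]

theorem wirings_finite [Finite G] (enc : X → B → I) (C : Circuit I B D L) :
    (wirings enc C (Set.range a)).Finite := by
  have := C.finite
  have h1 : wirings enc C (Set.range a) =
      Set.range fun p : C.Gate × G => view enc C p.1 (a p.2) := by
    ext ξ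
    constructor
    · rintro ⟨g, f, ⟨σ, rfl⟩, rfl⟩
      exact ⟨(g, σ), rfl⟩
    · rintro ⟨⟨g, σ⟩, rfl⟩
      exact ⟨g, a σ, ⟨σ, rfl⟩, rfl⟩
  rw [h1]
  exact Set.finite_range _

theorem mem_wirings (ha : IsAction a) (enc : X → B → I) (C : Circuit I B D L) (g : C.Gate) :
    view enc C g id ∈ wirings enc C (Set.range a) :=
  ⟨g, id, ⟨0, funext fun x => ha.zero x⟩, rfl⟩

theorem vfixer_eq_stab (ha : IsAction a) (enc : X → B → I) (C : Circuit I B D L) (g : C.Gate) :
    vfixer ha enc C g = stab (isAction_pre ha) (view enc C g id) := by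
  ext u
  rw [mem_vfixer, mem_stab, pre_view]
  rfl

open Classical in
/-- The sum of the indices of the different stabilisers of the wirings is at most the number of
the wirings. -/
theorem sum_index_le [Finite G] (ha : IsAction a) (enc : X → B → I) (C : Circuit I B D L)
    (Hs : Finset (Submodule (ZMod 2) G))
    (hHs : ∀ H ∈ Hs, ∃ g, vfixer ha enc C g = H) (P : Submodule (ZMod 2) G → ℕ)
    (hP : ∀ H, P H * Nat.card H = Nat.card G) :
    ∑ H ∈ Hs, P H ≤ numWirings enc C (Set.range a) := by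
  have hfin := wirings_finite (a := a) enc C
  have : Finite (wirings enc C (Set.range a)) := hfin
  let _ := Fintype.ofFinite (wirings enc C (Set.range a))
  let hρ := isAction_pre (I := I) (D := D) (L := L) ha
  have h1 : ∀ H ∈ Hs, P H ≤
      (univ.filter fun ξ : wirings enc C (Set.range a) => stab hρ ξ.1 = H).card := by
    intro H hH
    obtain ⟨g, rfl⟩ := hHs H hH
    have h2 := orbit_le hρ (wirings enc C (Set.range a)) hfin (wirings_closed ha enc C)
      (mem_wirings ha enc C g)
    rw [← vfixer_eq_stab, ← hP] at h2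
    have h3 : 0 < Nat.card (vfixer ha enc C g) := Nat.card_pos
    have h4 := Nat.le_of_mul_le_mul_right h2 h3
    rwa [Nat.card_eq_fintype_card, Fintype.card_subtype] at h4
  refine (sum_le_sum h1).trans ?_
  rw [← card_biUnion]
  · refine (card_le_card (subset_univ _)).trans (le_of_eq ?_)
    rw [card_univ, ← Nat.card_eq_fintype_card]
    rfl
  · intro H _ H' _ hne
    rw [Function.onFun, Finset.disjoint_left]
    intro ξ hξ hξ'
    rw [mem_filter] at hξ hξ'
    exact hne (hξ.2.symm.trans hξ'.2)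

end Pool.Agent.H429R4.FW
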