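import Pool.Agent.H429R4.FW.Orbits
import Pool.Agent.H30R2.PS.Final

/-!
# Circuits for the permanent have many wirings
-/

namespace Pool.Agent.H429R4.FW

open Finset
open Pool.Agent.H30R2.PS (Slot Gp Four Rw Cl rowAct colAct setup BB bad_one perp_card pair dot wt
  PP chi chi_add chi_eq_sg sum_PP permanent_eq quadPerm pairPerm exists_extend)

set_option linter.unusedSectionVars false

variable {w n : ℕ} {K D L : Type} [CommRing K]

/-- The entries of a matrix, as the inputs of a circuit. -/
def entries (M : Matrix (Fin n) (Fin n) K) : Fin n × Fin n → K := fun e => M e.1 e.2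

section Labelled

variable {Z : Type} (eR : Rw w Z ≃ Fin n) (eC : Cl w Z ≃ Fin n)

/-- The action on the matrices. -/
def actM (K : Type) (h : Gp w) (M : Matrix (Fin n) (Fin n) K) : Matrix (Fin n) (Fin n) K :=
  M.submatrix (eR.permCongr (rowAct h.2)) (eC.permCongr (colAct h.1))

theorem perm_apply (K : Type) [CommRing K] (π : Slot w ≃ Fin (3 * w) × Bool) (h : Gp w)
    (e : Fin n × Fin n) : (setup K π eR eC).perm h e =
      (eR.permCongr (rowAct h.2) e.1, eC.permCongr (colAct h.1) e.2) := rfl

theorem entries_actM (π : Slot w ≃ Fin (3 * w) × Bool) (h : Gp w)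
    (M : Matrix (Fin n) (Fin n) K) (e : Fin n × Fin n) :
    entries (actM eR eC K h M) e = entries M ((setup K π eR eC).perm h e) := rfl

theorem isAction_actM (π : Slot w ≃ Fin (3 * w) × Bool) : IsAction (actM eR eC K) where
  zero M := by
    ext i j
    have h1 : entries (actM eR eC K 0 M) (i, j) = entries M (i, j) := by
      rw [entries_actM eR eC π, (setup K π eR eC).perm_zero]
      rfl
    exact h1
  add u u' M := by
    ext i j
    have h1 : entries (actM eR eC K (u + u') M) (i, j) =
        entries (actM eR eC K u (actM eR eC K u' M)) (i, j) := by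
      rw [entries_actM eR eC π, entries_actM eR eC π, entries_actM eR eC π, add_comm,
        (setup K π eR eC).perm_add]
      rfl
    exact h1

/-- The family of matrices. -/
noncomputable def insM (π : Slot w ≃ Fin (3 * w) × Bool) (t : Slot w → ZMod 2) :
    Matrix (Fin n) (Fin n) K := Matrix.of fun i j => (setup K π eR eC).x t (i, j)

theorem entries_insM (π : Slot w ≃ Fin (3 * w) × Bool) (t : Slot w → ZMod 2)
    (e : Fin n × Fin n) : entries (insM eR eC π t : Matrix (Fin n) (Fin n) K) e =
      (setup K π eR eC).x t e := rfl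

theorem actM_insM (π : Slot w ≃ Fin (3 * w) × Bool) (u : Gp w) (t : Slot w → ZMod 2) :
    actM eR eC K u (insM eR eC π t) = insM eR eC π (t + BB π u) := by
  ext i j
  have h1 : entries (actM eR eC K u (insM eR eC π t)) (i, j) =
      entries (insM eR eC π (t + BB π u) : Matrix (Fin n) (Fin n) K) (i, j) := by
    rw [entries_actM eR eC π, entries_insM, entries_insM]
    have h2 := (setup K π eR eC).equi (t + BB π u) u (i, j)
    have h3 : t + BB π u + (setup K π eR eC).B u = t := by
      change t + BB π u + BB π u = t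
      rw [add_assoc, ← map_add, add_self_G, map_zero, add_zero]
    rw [h3] at h2
    exact h2
  exact h1

open Classical in
theorem exists_placement (C : Circuit K (Fin n × Fin n) D L)
    (π₀ : Slot w ≃ Fin (3 * w) × Bool) (τ : ℕ) (hτ : 3200 * τ ≤ w)
    (hs : numWirings entries C (Set.range (actM eR eC K)) < 2 ^ τ) :
    ∃ π : Slot w ≃ Fin (3 * w) × Bool,
      ∀ g, Mid (BB π) τ (vfixer (isAction_actM eR eC (K := K) π₀) entries C g) := by
  by_contra hcon
  rw [not_exists] at hcon
  have := C.finite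
  have ha := isAction_actM eR eC (K := K) π₀
  set T := numWirings entries C (Set.range (actM eR eC K)) with hT
  set S : Finset (Submodule (ZMod 2) (Gp w)) := univ.image (vfixer ha entries C) with hS
  set P : ℝ := ((Fintype.card (Slot w ≃ Fin (3 * w) × Bool) : ℕ) : ℝ) with hP
  have hP0 : 0 < P := by
    have : Nonempty (Slot w ≃ Fin (3 * w) × Bool) := ⟨π₀⟩
    rw [hP]
    exact_mod_cast Fintype.card_pos
  set BH : Submodule (ZMod 2) (Gp w) → Finset (Slot w ≃ Fin (3 * w) × Bool) := fun H =>
    univ.filter fun π : Slot w ≃ Fin (3 * w) × Bool =>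
      ∃ l : Slot w → ZMod 2, τ < wt l ∧ wt l ≤ 2 * τ ∧ ∀ h ∈ H, dot l (BB π h) = 0 with hBH
  set HP : Submodule (ZMod 2) (Gp w) → Finset (Gp w) := fun H =>
    univ.filter fun z : Gp w => ∀ h ∈ H, pair h z = 0 with hHP
  have hcov : (univ : Finset (Slot w ≃ Fin (3 * w) × Bool)) ⊆ S.biUnion BH := by
    intro π _
    have h1 := hcon π
    rw [not_forall] at h1
    obtain ⟨g, h1⟩ := h1
    unfold Mid at h1
    push Not at h1
    obtain ⟨l, h2, h3, h4⟩ := h1
    rw [Finset.mem_biUnion]
    refine ⟨vfixer ha entries C g, Finset.mem_image_of_mem _ (mem_univ g), ?_⟩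
    rw [hBH]
    exact Finset.mem_filter.mpr ⟨mem_univ _, l, h2, h3, h4⟩
  have hSsum : ∑ H ∈ S, ((HP H).card : ℝ) ≤ T := by
    have h1 := sum_index_le ha entries C S
      (by
        intro H hH
        rw [hS, Finset.mem_image] at hH
        obtain ⟨g, _, hg⟩ := hH
        exact ⟨g, hg⟩)
      (fun H => (HP H).card)
      (by
        intro H
        rw [hHP, perp_card H, Nat.card_eq_fintype_card])
    rw [← Nat.cast_sum]
    exact_mod_cast h1
  have hfin : P ≤ T * (P * (1 / 2) ^ τ) := by
    calc P = ((univ : Finset (Slot w ≃ Fin (3 * w) × Bool)).card : ℝ) := by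
          rw [Finset.card_univ]
      _ ≤ ((S.biUnion BH).card : ℝ) := by exact_mod_cast Finset.card_le_card hcov
      _ ≤ ∑ H ∈ S, ((BH H).card : ℝ) := by exact_mod_cast Finset.card_biUnion_le
      _ ≤ ∑ H ∈ S, ((HP H).card : ℝ) * (P * (1 / 2) ^ τ) :=
          Finset.sum_le_sum fun H _ => bad_one H τ hτ
      _ = (∑ H ∈ S, ((HP H).card : ℝ)) * (P * (1 / 2) ^ τ) := (Finset.sum_mul _ _ _).symm
      _ ≤ _ := mul_le_mul_of_nonneg_right hSsum (by positivity)
  have h6 : (T : ℝ) < 2 ^ τ := by exact_mod_cast hs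
  have h7 : (T : ℝ) * (P * (1 / 2) ^ τ) < 2 ^ τ * (P * (1 / 2) ^ τ) :=
    mul_lt_mul_of_pos_right h6 (by positivity)
  have h8 : (2 : ℝ) ^ τ * (P * (1 / 2) ^ τ) = P := by
    have h9 : (2 : ℝ) ^ τ * (1 / 2) ^ τ = 1 := by
      rw [← mul_pow]
      norm_num
    calc (2 : ℝ) ^ τ * (P * (1 / 2) ^ τ) = P * (2 ^ τ * (1 / 2) ^ τ) := by ring
      _ = P := by rw [h9, mul_one]
  linarith

/-- The labelled version of the lower bound. -/
theorem bound_labelled [Fintype Z] (h2 : ∀ k : ℕ, (2 : K) ^ k ≠ 0)
    (C : Circuit K (Fin n × Fin n) D L) (out : D → K)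
    (hcomp : ∀ M : Matrix (Fin n) (Fin n) K, out (C.output (entries M)) = M.permanent) :
    2 ^ (w / 3200) ≤ numWirings entries C (Set.range (actM eR eC K)) := by
  classical
  have hcardS : Fintype.card (Slot w) = Fintype.card (Fin (3 * w) × Bool) := by
    rw [Fintype.card_prod, Fintype.card_prod, Fintype.card_fin, Fintype.card_fin,
      Fintype.card_fin, Fintype.card_bool]
    ring
  let π₀ : Slot w ≃ Fin (3 * w) × Bool := Fintype.equivOfCardEq hcardS
  have ha := isAction_actM eR eC (K := K) π₀
  rcases Nat.lt_or_ge w 3200 with hw | hw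
  · rw [Nat.div_eq_of_lt hw, pow_zero]
    have hfin : Finite (wirings entries C (Set.range (actM eR eC K))) :=
      wirings_finite (a := actM eR eC K) entries C
    have hne : Nonempty (wirings entries C (Set.range (actM eR eC K))) :=
      ⟨⟨_, mem_wirings ha entries C C.out⟩⟩
    exact Nat.card_pos
  by_contra hcon
  rw [not_le] at hcon
  set τ : ℕ := w / 3200 with hτ
  have hτ1 : 1 ≤ τ := by omega
  have hτw : 3200 * τ ≤ w := Nat.mul_div_le w 3200
  obtain ⟨π, hG⟩ := exists_placement eR eC C π₀ τ hτw hcon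
  have hwt : τ < wt (fun _ : Slot w => (1 : ZMod 2)) := by
    have h3 : wt (fun _ : Slot w => (1 : ZMod 2)) = 6 * w := by
      unfold wt
      rw [Finset.filter_true_of_mem (fun _ _ => (by decide : (1 : ZMod 2) ≠ 0)),
        Finset.card_univ, Fintype.card_prod, Fintype.card_fin, Fintype.card_fin]
      ring
    rw [h3]
    omega
  obtain ⟨e, he, hshift⟩ := exists_output_shift ha entries C (insM eR eC π)
    (actM_insM eR eC π) hτ1 (setup K π eR eC).loc
    (fun β t e h => (setup K π eR eC).loc_x β t e h)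
    (fun β u h => by
      refine (setup K π eR eC).loc_perm β u ?_
      by_contra hne
      have h3 := h (Matrix.of fun i j => if (i, j) = β then (1 : K) else 0)
      rw [entries_actM eR eC π] at h3
      have h4 : ∀ e : Fin n × Fin n, entries (Matrix.of fun i j =>
          if (i, j) = β then (1 : K) else 0) e = if e = β then 1 else 0 := fun e => rfl
      rw [h4, h4, if_neg hne, if_pos rfl] at h3
      have h5 := h2 0
      rw [pow_zero] at h5
      exact h5 h3.symm)
    hG _ hwt
  have hval : ∀ t, out (C.output (entries (insM eR eC π t : Matrix (Fin n) (Fin n) K))) =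
      (PP π t : K) := by
    intro t
    rw [hcomp]
    exact permanent_eq (K := K) π eR eC t
  have hPP : ∀ t, (PP π (t + e) : K) = (PP π t : K) := by
    intro t
    rw [← hval, ← hval, hshift]
  have hchi : chi e = -1 := by
    rw [chi_eq_sg]
    have h5 : ∑ s, e s = 1 := by
      rw [← he]
      unfold dot
      exact Finset.sum_congr rfl fun s _ => (one_mul _).symm
    rw [h5]
    rfl
  have hsum := congrArg (Int.cast : ℤ → K) (sum_PP π)
  rw [Int.cast_sum] at hsum
  have hneg : ∑ t : Slot w → ZMod 2, ((chi t * PP π t : ℤ) : K) =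
      - ∑ t : Slot w → ZMod 2, ((chi t * PP π t : ℤ) : K) := by
    calc ∑ t : Slot w → ZMod 2, ((chi t * PP π t : ℤ) : K)
        = ∑ t : Slot w → ZMod 2, ((chi (t + e) * PP π (t + e) : ℤ) : K) :=
          (Equiv.sum_comp (Equiv.addRight e)
            (fun t : Slot w → ZMod 2 => ((chi t * PP π t : ℤ) : K))).symm
      _ = ∑ t : Slot w → ZMod 2, -((chi t * PP π t : ℤ) : K) := by
          refine Finset.sum_congr rfl fun t _ => ?_
          rw [chi_add, hchi, Int.cast_mul, hPP]
          push_cast
          ring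
      _ = _ := Finset.sum_neg_distrib _
  have hzero : (2 : K) * ∑ t : Slot w → ZMod 2, ((chi t * PP π t : ℤ) : K) = 0 := by
    rw [two_mul]
    nth_rewrite 1 [hneg]
    exact neg_add_cancel _
  rw [hsum] at hzero
  have h6 : (2 : K) ^ (1 + 3 * (2 * w) + 3 * w) = 0 := by
    have h7 : (((8 ^ (2 * w) * (-2) ^ (3 * w) : ℤ)) : K) =
        (-1) ^ (3 * w) * ((2 : K) ^ (3 * (2 * w)) * 2 ^ (3 * w)) := by
      push_cast
      have h8 : (8 : K) = 2 ^ 3 := by norm_num
      rw [h8, ← pow_mul]
      have h9 : (-2 : K) ^ (3 * w) = (-1) ^ (3 * w) * 2 ^ (3 * w) := by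
        rw [← mul_pow]
        norm_num
      rw [h9]
      ring
    rw [h7] at hzero
    have h10 : ((-1 : K)) ^ (3 * w) * (-1) ^ (3 * w) = 1 := by
      rw [← mul_pow]
      norm_num
    calc (2 : K) ^ (1 + 3 * (2 * w) + 3 * w)
        = ((-1) ^ (3 * w) * (-1) ^ (3 * w)) * (2 ^ (1 + 3 * (2 * w) + 3 * w)) := by
          rw [h10, one_mul]
      _ = (-1) ^ (3 * w) *
          (2 * ((-1) ^ (3 * w) * ((2 : K) ^ (3 * (2 * w)) * 2 ^ (3 * w)))) := by
          rw [pow_add, pow_add, pow_one]
          ring
      _ = 0 := by rw [hzero, mul_zero]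
  exact h2 _ h6

end Labelled

/-- The row and column permutations that permute the rows of the given quadruples by Klein's
four-group, and swap some of the given pairs of columns. -/
def blockMoves (K : Type) (ρ : Fin (2 * w) × Four ↪ Fin n) (κ : Fin (3 * w) × ZMod 2 ↪ Fin n) :
    Set (Matrix (Fin n) (Fin n) K → Matrix (Fin n) (Fin n) K) :=
  Set.range fun (h : (Fin (3 * w) → ZMod 2) × (Fin (2 * w) → Four))
    (M : Matrix (Fin n) (Fin n) K) =>
      M.submatrix ((quadPerm h.2).viaEmbedding ρ) ((pairPerm h.1).viaEmbedding κ)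

/-- The lower bound for the permanent. -/
theorem perm_wirings (h2 : ∀ k : ℕ, (2 : K) ^ k ≠ 0)
    (hn : 8 * w ≤ n) (ρ : Fin (2 * w) × Four ↪ Fin n) (κ : Fin (3 * w) × ZMod 2 ↪ Fin n)
    (C : Circuit K (Fin n × Fin n) D L) (out : D → K)
    (hcomp : ∀ M : Matrix (Fin n) (Fin n) K, out (C.output (entries M)) = M.permanent) :
    2 ^ (w / 3200) ≤ numWirings entries C (blockMoves K ρ κ) := by
  classical
  obtain ⟨eR, heR⟩ := exists_extend (γ := Fin (n - 8 * w)) ρ (by
    rw [Fintype.card_prod, Fintype.card_prod, Fintype.card_fin, Fintype.card_fin,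
      Fintype.card_fin, ZMod.card]
    omega)
  obtain ⟨eC', heC'⟩ := exists_extend (γ := Fin (2 * w) ⊕ Fin (n - 8 * w)) κ (by
    rw [Fintype.card_sum, Fintype.card_prod, Fintype.card_fin, Fintype.card_fin,
      Fintype.card_fin, Fintype.card_fin, ZMod.card]
    omega)
  let eC : Cl w (Fin (n - 8 * w)) ≃ Fin n := (Equiv.sumAssoc _ _ _).trans eC'
  have heC : ∀ x, eC (Sum.inl (Sum.inl x)) = κ x := heC'
  have h3 : ∀ U, eR.permCongr (rowAct U) = (quadPerm U).viaEmbedding ρ := by
    intro U
    refine Equiv.ext fun b => ?_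
    obtain ⟨r, rfl⟩ := eR.surjective b
    rw [Equiv.permCongr_apply, Equiv.symm_apply_apply]
    rcases r with x | z
    · rw [heR, Equiv.Perm.viaEmbedding_apply, ← heR]
      rfl
    · rw [Equiv.Perm.viaEmbedding_apply_of_notMem]
      · rfl
      · rintro ⟨x, hx⟩
        rw [← heR] at hx
        exact Sum.inl_ne_inr (eR.injective hx)
  have h4 : ∀ a, eC.permCongr (colAct a) = (pairPerm a).viaEmbedding κ := by
    intro a
    refine Equiv.ext fun b => ?_
    obtain ⟨r, rfl⟩ := eC.surjective b
    rw [Equiv.permCongr_apply, Equiv.symm_apply_apply]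
    rcases r with (x | u) | z
    · rw [heC, Equiv.Perm.viaEmbedding_apply, ← heC]
      rfl
    · rw [Equiv.Perm.viaEmbedding_apply_of_notMem]
      · rfl
      · rintro ⟨x, hx⟩
        rw [← heC] at hx
        exact Sum.inl_ne_inr (Sum.inl.inj (eC.injective hx))
    · rw [Equiv.Perm.viaEmbedding_apply_of_notMem]
      · rfl
      · rintro ⟨x, hx⟩
        rw [← heC] at hx
        exact Sum.inl_ne_inr (eC.injective hx)
  have h5 : blockMoves K ρ κ = Set.range (actM eR eC K) := by
    unfold blockMoves
    refine congrArg Set.range (funext fun h => funext fun M => ?_)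
    unfold actM
    rw [h3, h4]
  rw [h5]
  exact bound_labelled eR eC h2 C out hcomp

end Pool.Agent.H429R4.FW
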